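import Mathlib
import Pool.Agent.H.MP_4d1f21_nt.Q
import Pool.Agent.H.MP_5b3c88_nt.A

open Finset Polynomial

namespace Pool.Agent.Results.MP_5b3c88_nt.Yes

noncomputable def q : RatFunc ℚ := RatFunc.X

noncomputable def qi (n : ℕ) : ℤ[X] := ∑ k ∈ range n, X ^ k

noncomputable def F : ℕ → ℤ[X]
  | 0 => 0
  | 1 => 1
  | n + 2 => F (n + 1) + X ^ (n + 1) * F n

noncomputable def gauss (n k : ℕ) : RatFunc ℚ :=
  (∏ r ∈ Ioc 0 n, aeval q (qi r)) /
    ((∏ s ∈ Ioc 0 k, aeval q (qi s)) * ∏ t ∈ Ioc 0 (n - k), aeval q (qi t))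

noncomputable def S (a m : ℕ) : RatFunc ℚ :=
  ∑ k ∈ range (5 ^ a * m),
    q ^ (-(2 * k * (k + 1) : ℤ)) * gauss (2 * k) k * aeval q (F (2 * k + 1))

open Pool.Agent.H.MP_4d1f21_nt Pool.Agent.H.MP_5b3c88_nt

theorem F_eq {B : Type*} [CommRing B] [Algebra ℤ B] (x : B) (n : ℕ) : aeval x (F n) = Fg x n := by
  induction n using Nat.strong_induction_on with
  | _ n ih =>
    match n with
    | 0 => simp [F, Fg]
    | 1 => simp [F, Fg]
    | n + 2 => simp [F, Fg, ih (n + 1) (by omega), ih n (by omega)]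

theorem qne {j : ℕ} (hj : 0 < j) : 1 - q ^ j ≠ 0 := by
  have h : (1 - X ^ j : ℚ[X]) ≠ 0 := by
    intro h
    have := congrArg (eval 0) h
    simp [hj.ne'] at this
  have h2 : 1 - q ^ j = algebraMap ℚ[X] (RatFunc ℚ) (1 - X ^ j) := by simp [q]
  rw [h2]
  exact fun h0 => h (IsFractionRing.injective ℚ[X] (RatFunc ℚ) (by rw [h0, map_zero]))

theorem pq (n : ℕ) : (∏ r ∈ Ioc 0 n, aeval q (qi r)) * (1 - q) ^ n
    = ∏ j ∈ range n, (1 - q ^ (j + 1)) := by
  induction n with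
  | zero => simp
  | succ n ih =>
    rw [prod_Ioc_succ_top (by omega), prod_range_succ, ← ih, pow_succ]
    have : aeval q (qi (n + 1)) * (1 - q) = 1 - q ^ (n + 1) := by
      simp only [qi, map_sum, map_pow, aeval_X]
      exact geom_sum_mul_neg q (n + 1)
    linear_combination (∏ r ∈ Ioc 0 n, aeval q (qi r)) * (1 - q) ^ n * this

theorem gauss_eq (k : ℕ) : gauss (2 * k) k = gb q (2 * k) k := by
  have h1 : (1 - q) ≠ 0 := by simpa using qne one_pos
  have h2 : ∏ j ∈ range k, (1 - q ^ (j + 1)) ≠ 0 := prod_ne_zero_iff.2 fun j _ => qne (by omega)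
  have h3 := gb_prod q k k
  have h4 := pq k
  have h5 := pq (k + k)
  have h6 : ∏ r ∈ Ioc 0 k, aeval q (qi r) ≠ 0 := fun h => h2 (by rw [← h4, h, zero_mul])
  rw [gauss, show 2 * k - k = k by omega, two_mul, div_eq_iff (mul_ne_zero h6 h6)]
  apply mul_right_cancel₀ (pow_ne_zero (k + k) h1)
  rw [h5, ← h3, ← h4]; ring

theorem result (a m : ℕ) (_ha : 0 < a) (hm : 0 < m) :
    ∃ (N : ℕ) (P : ℤ[X]), q ^ N * S a m = aeval q (qi (5 ^ a) ^ 2 * P) := by
  set n := 5 ^ a * m with hn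
  set U : ℤ[X] := ∑ k ∈ range n,
    X ^ (2 * n * (n + 1) - 2 * k * (k + 1)) * gb X (2 * k) k * F (2 * k + 1) with hU
  have hle : ∀ k ∈ range n, 2 * k * (k + 1) ≤ 2 * n * (n + 1) := fun k hk => by
    have := mem_range.1 hk
    exact Nat.mul_le_mul (by omega) (by omega)
  have hev : ∀ {B : Type} [CommRing B] [Algebra ℤ B] (x t : B), x * t = 1 → aeval x U = x ^ (2 * n * (n + 1)) *
      ∑ k ∈ range n, t ^ (2 * k * (k + 1)) * gb x (2 * k) k * Fg x (2 * k + 1) := by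
    intro B _ _ x t h
    rw [hU, map_sum, mul_sum]
    refine sum_congr rfl fun k hk => ?_
    have h1 := gb_map (aeval x : ℤ[X] →ₐ[ℤ] B).toRingHom X (2 * k) k
    simp only [AlgHom.toRingHom_eq_coe, RingHom.coe_coe, aeval_X] at h1
    have h2 : x ^ (2 * k * (k + 1)) * t ^ (2 * k * (k + 1)) = 1 := by rw [← mul_pow, h, one_pow]
    rw [map_mul, map_mul, map_pow, aeval_X, h1, F_eq]
    conv_rhs => rw [← Nat.sub_add_cancel (hle k hk), pow_add]
    linear_combination (-x ^ (2 * n * (n + 1) - 2 * k * (k + 1)) * gb x (2 * k) k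
      * Fg x (2 * k + 1)) * h2
  have hq : q ≠ 0 := RatFunc.X_ne_zero
  have hdiv : ∀ d ∈ (5 ^ a).divisors.erase 1, cyclotomic d ℚ ^ 2 ∣ U.map (Int.castRingHom ℚ) := by
    intro d hd
    obtain ⟨hd1, hd2⟩ := mem_erase.1 hd
    obtain ⟨j, hj, rfl⟩ := (Nat.dvd_prime_pow Nat.prime_five).1 (Nat.dvd_of_mem_divisors hd2)
    obtain ⟨j, rfl⟩ : ∃ i, j = i + 1 := ⟨j - 1, by
      rcases j with _ | j
      · simp at hd1
      · simp⟩
    set x := AdjoinRoot.root (cyclotomic (5 ^ (j + 1)) ℚ ^ 2) with hx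
    have he := eps_pow (5 ^ (j + 1)) 2
    rw [← hx] at he
    have h0 : 0 < 5 ^ (j + 1) := by positivity
    set t := x ^ (5 ^ (j + 1) - 1) * (2 - x ^ 5 ^ (j + 1)) with ht
    have hxt : x * t = 1 := by
      rw [ht, ← mul_assoc, ← pow_succ', Nat.sub_add_cancel h0]; linear_combination -he
    have hp : ∀ i, x ^ i * t ^ i = 1 := fun i => by rw [← mul_pow, hxt, one_pow]
    have e5 : 5 ^ (j + 1) = 5 * 5 ^ j := by ring
    have hM := main hxt (5 ^ j) (5 ^ (a - (j + 1)) * m) (by rw [Nat.pow_mod]; simp) (by positivity)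
      (by
        rw [← e5]
        have := hp (5 ^ (j + 1))
        linear_combination (t ^ 5 ^ (j + 1)) ^ 2 * he
          - (x ^ 5 ^ (j + 1) * t ^ 5 ^ (j + 1) + 1 - 2 * t ^ 5 ^ (j + 1)) * this)
      (by
        intro i hi
        rw [← e5] at hi
        have h1 := unit_root 2 h0 hi
        rw [← hx] at h1
        have h2 : 1 - t ^ i = -t ^ i * (1 - x ^ i) := by linear_combination -hp i
        rw [h2]
        exact ((IsUnit.of_mul_eq_one_right x hxt).pow i).neg.mul h1)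
    rw [← e5, ← mul_assoc, ← pow_add, Nat.add_sub_cancel' hj, ← hn] at hM
    have := hev x t hxt
    rw [hM, mul_zero] at this
    rw [← AdjoinRoot.mk_eq_zero, ← AdjoinRoot.aeval_eq, ← hx, ← algebraMap_int_eq,
      aeval_map_algebraMap]
    exact this
  have hdiv2 : (qi (5 ^ a) ^ 2).map (Int.castRingHom ℚ) ∣ U.map (Int.castRingHom ℚ) := by
    have h0 : 0 < 5 ^ a := by positivity
    have : (qi (5 ^ a) ^ 2).map (Int.castRingHom ℚ)
        = ∏ d ∈ (5 ^ a).divisors.erase 1, cyclotomic d ℚ ^ 2 := by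
      rw [prod_pow, prod_cyclotomic_eq_geom_sum h0]
      simp [qi, Polynomial.map_sum]
    rw [this]
    refine Finset.prod_dvd_of_coprime (fun i _ j _ hij => ?_) hdiv
    exact (cyclotomic.isCoprime_rat hij).pow
  have hmon : (qi (5 ^ a) ^ 2).Monic := (monic_geom_sum_X (by positivity)).pow 2
  obtain ⟨P, hP⟩ := (map_dvd_map _ (RingHom.injective_int _) hmon).1 hdiv2
  refine ⟨2 * n * (n + 1), P, ?_⟩
  rw [← hP, hev q q⁻¹ (mul_inv_cancel₀ hq), S]
  congr 1
  refine sum_congr rfl fun k _ => ?_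
  rw [gauss_eq, F_eq, zpow_neg, inv_pow, ← zpow_natCast]
  push_cast
  rfl

end Pool.Agent.Results.MP_5b3c88_nt.Yes
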